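import Pool.Agent.H61.KV.TF

/-!
# A normal form of the quadratic part
-/

open Topology Set
open Pool.Agent.H61.KV

namespace Pool.Agent.H21.KV.AL1

lemma xx_mem {T : Set F4} {β : F4 →ₗ[ℝ] F4 →ₗ[ℝ] F4} (hQ : Qd T β) (w : F4) : β w w ∈ T := by
  by_cases hw : w = 0
  · rw [hw, map_zero]; exact hQ.sc.cc.zero
  · exact (hQ.bdy w hw).1

lemma expand {T : Set F4} {β : F4 →ₗ[ℝ] F4 →ₗ[ℝ] F4} (hQ : Qd T β) (v w : F4) :
    β (v + w) (v + w) = β v v + (2 : ℝ) • β v w + β w w := by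
  simp only [map_add, LinearMap.add_apply, hQ.symm w v, two_smul]
  abel

/-- a functional which is nonnegative on `T` and vanishes at `β x x` -/
lemma zeta_zero {T : Set F4} {β : F4 →ₗ[ℝ] F4 →ₗ[ℝ] F4} (hQ : Qd T β) (ζ : F4 →ₗ[ℝ] ℝ)
    (hζ : ∀ s ∈ T, 0 ≤ ζ s) (x : F4) (hx : ζ (β x x) = 0) (v : F4) : ζ (β x v) = 0 := by
  by_contra hB
  have key : ∀ s : ℝ, 0 ≤ ζ (β v v) + 2 * s * ζ (β x v) := by
    intro s
    have h1 := hζ _ (xx_mem hQ (v + s • x))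
    rw [expand hQ, map_add, map_add] at h1
    simp only [map_smul, LinearMap.smul_apply, smul_eq_mul, hx, mul_zero, add_zero,
      hQ.symm v x] at h1
    linarith
  have h2 := key (-(ζ (β v v) + 1) / (2 * ζ (β x v)))
  have h3 : 2 * (-(ζ (β v v) + 1) / (2 * ζ (β x v))) * ζ (β x v) = -(ζ (β v v) + 1) := by
    field_simp
  rw [h3] at h2
  linarith

/-- polarisation in a plane -/
lemma polar {T : Set F4} {β : F4 →ₗ[ℝ] F4 →ₗ[ℝ] F4} (hQ : Qd T β) {t : F4}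
    {D : Submodule ℝ F4} (hD : ∀ w, w ∈ D ↔ ∃ c : ℝ, β w w = c • t) {x x' : F4}
    (hx : x ∈ D) (hx' : x' ∈ D) : ∃ c : ℝ, β x x' = c • t := by
  obtain ⟨a, ha⟩ := (hD x).1 hx
  obtain ⟨b, hb⟩ := (hD x').1 hx'
  obtain ⟨c, hc⟩ := (hD (x + x')).1 (D.add_mem hx hx')
  rw [expand hQ, ha, hb] at hc
  refine ⟨2⁻¹ * (c - a - b), ?_⟩
  have h1 : (2 : ℝ) • β x x' = (c - a - b) • t := by
    rw [sub_smul, sub_smul, ← hc]
    abel
  rw [mul_smul, ← h1, smul_smul]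
  norm_num

lemma pos_coeff {T : Set F4} {β : F4 →ₗ[ℝ] F4 →ₗ[ℝ] F4} (hQ : Qd T β) {t w : F4} {c : ℝ}
    (ht : t ∈ T) (hw : w ≠ 0) (h : β w w = c • t) : 0 < c := by
  obtain ⟨e, he⟩ := hQ.sc.cc.pos
  have h1 := he _ (hQ.bdy w hw).1 (hQ.bdy w hw).2.1
  have ht0 : t ≠ 0 := by
    rintro rfl
    rw [smul_zero] at h
    exact (hQ.bdy w hw).2.1 h
  have h2 := he _ ht ht0
  rw [h, map_smul, smul_eq_mul] at h1
  by_contra hc
  push Not at hc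
  nlinarith

theorem pf_AL1 (h1 : T_SCF) : T_AL1 := by
  intro T β hQ
  obtain ⟨sup, two⟩ := h1 T hQ.sc
  -- the first vector
  obtain ⟨x₀, hx₀⟩ : ∃ x : F4, x ≠ 0 := exists_ne 0
  obtain ⟨t₁, ht₁⟩ : ∃ t, t = β x₀ x₀ := ⟨_, rfl⟩
  have hB1 : Bo T t₁ := ht₁ ▸ hQ.bdy x₀ hx₀
  obtain ⟨D1, hr1, hD1⟩ := hQ.pln t₁ hB1
  have hx₀D : x₀ ∈ D1 := (hD1 x₀).2 ⟨1, by rw [one_smul, ht₁]⟩
  -- the second vector
  obtain ⟨t', hBt', ht', -⟩ := two t₁ t₁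
  obtain ⟨D', hr', hD'⟩ := hQ.pln t' hBt'
  obtain ⟨y₀, hy₀D', hy₀⟩ : ∃ y ∈ D', y ≠ 0 := by
    have : D' ≠ ⊥ := by
      rintro rfl
      rw [finrank_bot] at hr'
      omega
    exact Submodule.exists_mem_ne_zero_of_ne_bot this
  obtain ⟨t₂, ht₂⟩ : ∃ t, t = β y₀ y₀ := ⟨_, rfl⟩
  have hB2 : Bo T t₂ := ht₂ ▸ hQ.bdy y₀ hy₀
  have ht₂s : t₂ ∉ Submodule.span ℝ {t₁} := by
    obtain ⟨c, hc⟩ := (hD' y₀).1 hy₀D'
    have hcp := pos_coeff hQ hBt'.1 hy₀ hc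
    intro h
    apply ht'
    have : t' = c⁻¹ • t₂ := by
      rw [ht₂, hc, smul_smul, inv_mul_cancel₀ hcp.ne', one_smul]
    rw [this]
    exact Submodule.smul_mem _ _ h
  obtain ⟨D2, hr2, hD2⟩ := hQ.pln t₂ hB2
  have hy₀D : y₀ ∈ D2 := (hD2 y₀).2 ⟨1, by rw [one_smul, ht₂]⟩
  -- the functionals
  obtain ⟨ζ₁, hζ1, hζ1t, hζ1z⟩ := sup t₁ hB1
  obtain ⟨ζ₂, hζ2, hζ2t, hζ2z⟩ := sup t₂ hB2
  have p12 : 0 < ζ₁ t₂ := by
    refine lt_of_le_of_ne (hζ1 _ hB2.1) (fun h => ?_)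
    obtain ⟨c, -, hc⟩ := hζ1z t₂ hB2.1 h.symm
    exact ht₂s (Submodule.mem_span_singleton.2 ⟨c, hc.symm⟩)
  have p21 : 0 < ζ₂ t₁ := by
    refine lt_of_le_of_ne (hζ2 _ hB1.1) (fun h => ?_)
    obtain ⟨c, -, hc⟩ := hζ2z t₁ hB1.1 h.symm
    have hc0 : c ≠ 0 := by
      rintro rfl
      rw [zero_smul] at hc
      exact hB1.2.1 hc
    refine ht₂s (Submodule.mem_span_singleton.2 ⟨c⁻¹, ?_⟩)
    rw [hc, smul_smul, inv_mul_cancel₀ hc0, one_smul]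
  have z1 : ∀ x ∈ D1, ∀ v, ζ₁ (β x v) = 0 := by
    intro x hx v
    obtain ⟨c, hc⟩ := (hD1 x).1 hx
    exact zeta_zero hQ ζ₁ hζ1 x (by rw [hc, map_smul, hζ1t, smul_zero]) v
  have z2 : ∀ y ∈ D2, ∀ v, ζ₂ (β y v) = 0 := by
    intro y hy v
    obtain ⟨c, hc⟩ := (hD2 y).1 hy
    exact zeta_zero hQ ζ₂ hζ2 y (by rw [hc, map_smul, hζ2t, smul_zero]) v
  -- the two planes
  have hinf : ∀ w, w ∈ D1 → w ∈ D2 → w = 0 := by
    intro w hw1 hw2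
    by_contra hw
    obtain ⟨c, hc⟩ := (hD1 w).1 hw1
    have hcp := pos_coeff hQ hB1.1 hw hc
    have h2 := z2 w hw2 w
    rw [hc, map_smul, smul_eq_mul] at h2
    exact absurd h2 (mul_pos hcp p21).ne'
  have hsup : ∀ z : F4, ∃ x ∈ D1, ∃ y ∈ D2, x + y = z := by
    have h2 : D1 ⊓ D2 = ⊥ := by
      rw [Submodule.eq_bot_iff]
      intro w hw
      exact hinf w hw.1 hw.2
    have h3 := Submodule.finrank_sup_add_finrank_inf_eq D1 D2
    rw [h2, finrank_bot, hr1, hr2] at h3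
    have h4 : D1 ⊔ D2 = ⊤ := by
      apply Submodule.eq_top_of_finrank_eq
      rw [finrank_euclideanSpace, Fintype.card_fin]
      omega
    intro z
    have : z ∈ D1 ⊔ D2 := by rw [h4]; exact Submodule.mem_top
    exact Submodule.mem_sup.1 this
  -- the diagonal plane
  have hz₀ : x₀ + y₀ ≠ 0 := by
    intro h
    have h2 : y₀ = -x₀ := by rw [eq_neg_iff_add_eq_zero, add_comm]; exact h
    exact hy₀ (hinf y₀ (h2 ▸ D1.neg_mem hx₀D) hy₀D)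
  obtain ⟨t₀, ht₀⟩ : ∃ t, t = β (x₀ + y₀) (x₀ + y₀) := ⟨_, rfl⟩
  have hB0 : Bo T t₀ := ht₀ ▸ hQ.bdy _ hz₀
  have ht₀' : t₀ = t₁ + (2 : ℝ) • β x₀ y₀ + t₂ := by
    rw [ht₀, expand hQ, ← ht₁, ← ht₂]
  obtain ⟨D0, hr0, hD0⟩ := hQ.pln t₀ hB0
  have hz₀D : x₀ + y₀ ∈ D0 := (hD0 _).2 ⟨1, by rw [one_smul, ht₀]⟩
  obtain ⟨z₁, hz₁D, hz01, hz11⟩ : ∃ z ∈ D0, β (x₀ + y₀) z = 0 ∧ β z z = t₀ := by
    obtain ⟨w, hwD, hw⟩ : ∃ w ∈ D0, w ∉ Submodule.span ℝ {x₀ + y₀} := by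
      by_contra hno
      push Not at hno
      have h2 : D0 ≤ Submodule.span ℝ {x₀ + y₀} := hno
      have h3 := Submodule.finrank_mono h2
      have h4 := finrank_span_singleton (K := ℝ) hz₀
      omega
    obtain ⟨c, hc⟩ := polar hQ hD0 hz₀D hwD
    have h2 : β (x₀ + y₀) (w - c • (x₀ + y₀)) = 0 := by
      rw [map_sub, map_smul, hc, ← ht₀, sub_self]
    have h3 : w - c • (x₀ + y₀) ∈ D0 := D0.sub_mem hwD (D0.smul_mem _ hz₀D)
    have h4 : w - c • (x₀ + y₀) ≠ 0 := by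
      intro h
      rw [sub_eq_zero] at h
      exact hw (Submodule.mem_span_singleton.2 ⟨c, h.symm⟩)
    obtain ⟨d, hd⟩ := (hD0 _).1 h3
    have hdp := pos_coeff hQ hB0.1 h4 hd
    refine ⟨(Real.sqrt d)⁻¹ • (w - c • (x₀ + y₀)), D0.smul_mem _ h3, ?_, ?_⟩
    · rw [map_smul, h2, smul_zero]
    · rw [map_smul, map_smul, LinearMap.smul_apply, hd, smul_smul, smul_smul, ← mul_inv,
        Real.mul_self_sqrt hdp.le, inv_mul_cancel₀ hdp.ne', one_smul]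
  obtain ⟨x₁, hx₁D, y₁, hy₁D, hxy⟩ := hsup z₁
  rw [← hxy] at hz01 hz11
  rw [expand hQ] at hz11
  -- `β x₁ x₁ = t₁`
  have e1 : β x₁ x₁ = t₁ := by
    obtain ⟨c, hc⟩ := (hD1 x₁).1 hx₁D
    have h2 := congrArg ζ₂ hz11
    rw [ht₀'] at h2
    simp only [map_add, map_smul, smul_eq_mul, hQ.symm x₁ y₁, hQ.symm x₀ y₀, z2 y₁ hy₁D,
      z2 y₀ hy₀D, hζ2t, mul_zero, add_zero, hc] at h2
    have h3 : (c - 1) * ζ₂ t₁ = 0 := by linarith
    rcases mul_eq_zero.1 h3 with h4 | h4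
    · rw [hc, sub_eq_zero.1 h4, one_smul]
    · exact absurd h4 p21.ne'
  have e2 : β y₁ y₁ = t₂ := by
    obtain ⟨c, hc⟩ := (hD2 y₁).1 hy₁D
    have h2 := congrArg ζ₁ hz11
    rw [ht₀'] at h2
    simp only [map_add, map_smul, smul_eq_mul, z1 x₁ hx₁D,
      z1 x₀ hx₀D, hζ1t, mul_zero, add_zero, zero_add, hc] at h2
    have h3 : (c - 1) * ζ₁ t₂ = 0 := by linarith
    rcases mul_eq_zero.1 h3 with h4 | h4
    · rw [hc, sub_eq_zero.1 h4, one_smul]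
    · exact absurd h4 p12.ne'
  have e3 : β x₁ y₁ = β x₀ y₀ := by
    rw [ht₀', e1, e2, add_assoc, add_assoc, add_right_inj, add_left_inj] at hz11
    exact smul_right_injective F4 (two_ne_zero (α := ℝ)) hz11
  have hz01' : β x₀ x₁ + β x₀ y₁ + (β y₀ x₁ + β y₀ y₁) = 0 := by
    rw [← hz01, map_add β, LinearMap.add_apply, map_add (β x₀), map_add (β y₀)]
  have e4 : β x₀ x₁ = 0 := by
    obtain ⟨c, hc⟩ := polar hQ hD1 hx₀D hx₁D
    have h2 := congrArg ζ₂ hz01'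
    simp only [map_add, map_smul, smul_eq_mul, hQ.symm x₀ y₁, z2 y₁ hy₁D,
      z2 y₀ hy₀D, add_zero, hc, map_zero] at h2
    rcases mul_eq_zero.1 h2 with h4 | h4
    · rw [hc, h4, zero_smul]
    · exact absurd h4 p21.ne'
  have e5 : β y₀ y₁ = 0 := by
    obtain ⟨c, hc⟩ := polar hQ hD2 hy₀D hy₁D
    have h2 := congrArg ζ₁ hz01'
    simp only [map_add, map_smul, smul_eq_mul, hQ.symm y₀ x₁, z1 x₁ hx₁D,
      z1 x₀ hx₀D, add_zero, zero_add, hc, map_zero] at h2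
    rcases mul_eq_zero.1 h2 with h4 | h4
    · rw [hc, h4, zero_smul]
    · exact absurd h4 p12.ne'
  have e6 : β x₁ y₀ = -β x₀ y₁ := by
    rw [e4, e5, zero_add, add_zero] at hz01'
    rw [hQ.symm x₁ y₀, eq_neg_iff_add_eq_zero, add_comm]
    exact hz01'
  have ht₁0 : t₁ ≠ 0 := hB1.2.1
  have ht₂0 : t₂ ≠ 0 := hB2.2.1
  have hD2zero : ∀ c d : ℝ, c • y₀ + d • y₁ = 0 → c = 0 ∧ d = 0 := by
    intro c d h
    have h2 := congrArg (β y₀) h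
    have h3 := congrArg (β y₁) h
    simp only [map_add, map_smul, map_zero, ← ht₂, e5, smul_zero, add_zero] at h2
    simp only [map_add, map_smul, map_zero, hQ.symm y₁ y₀, e5, e2, smul_zero, zero_add] at h3
    exact ⟨(smul_eq_zero.1 h2).resolve_right ht₂0, (smul_eq_zero.1 h3).resolve_right ht₂0⟩
  have hD1zero : ∀ c d : ℝ, c • x₀ + d • x₁ = 0 → c = 0 ∧ d = 0 := by
    intro c d h
    have h2 := congrArg (β x₀) h
    have h3 := congrArg (β x₁) h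
    simp only [map_add, map_smul, map_zero, ← ht₁, e4, smul_zero, add_zero] at h2
    simp only [map_add, map_smul, map_zero, hQ.symm x₁ x₀, e4, e1, smul_zero, zero_add] at h3
    exact ⟨(smul_eq_zero.1 h2).resolve_right ht₁0, (smul_eq_zero.1 h3).resolve_right ht₁0⟩
  refine ⟨x₀, x₁, y₀, y₁, t₁, t₂, β x₀ y₀, β x₀ y₁, ?_, ?_, ht₁.symm, e1, e4, ht₂.symm, e2, e5,
    rfl, e3, rfl, e6⟩
  · rw [Fintype.linearIndependent_iff]
    intro g hg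
    rw [Fin.sum_univ_four] at hg
    change g 0 • x₀ + g 1 • x₁ + g 2 • y₀ + g 3 • y₁ = 0 at hg
    have h2 : g 0 • x₀ + g 1 • x₁ = -(g 2 • y₀ + g 3 • y₁) := by
      rw [eq_neg_iff_add_eq_zero, ← add_assoc]
      exact hg
    have h3 : g 0 • x₀ + g 1 • x₁ = 0 := by
      refine hinf _ (D1.add_mem (D1.smul_mem _ hx₀D) (D1.smul_mem _ hx₁D)) ?_
      rw [h2]
      exact D2.neg_mem (D2.add_mem (D2.smul_mem _ hy₀D) (D2.smul_mem _ hy₁D))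
    rw [h3, eq_comm, neg_eq_zero] at h2
    obtain ⟨a0, a1⟩ := hD1zero _ _ h3
    obtain ⟨a2, a3⟩ := hD2zero _ _ h2
    intro i
    fin_cases i
    · exact a0
    · exact a1
    · exact a2
    · exact a3
  · rw [Fintype.linearIndependent_iff]
    intro g hg
    rw [Fin.sum_univ_four] at hg
    change g 0 • t₁ + g 1 • t₂ + g 2 • β x₀ y₀ + g 3 • β x₀ y₁ = 0 at hg
    have a1 : g 1 = 0 := by
      have h2 := congrArg ζ₁ hg
      simp only [map_add, map_smul, smul_eq_mul, hζ1t, z1 x₀ hx₀D, mul_zero, add_zero,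
        zero_add, map_zero] at h2
      exact (mul_eq_zero.1 h2).resolve_right p12.ne'
    have a0 : g 0 = 0 := by
      have h2 := congrArg ζ₂ hg
      simp only [map_add, map_smul, smul_eq_mul, hζ2t, hQ.symm x₀ y₀, hQ.symm x₀ y₁,
        z2 y₀ hy₀D, z2 y₁ hy₁D, mul_zero, add_zero, map_zero] at h2
      exact (mul_eq_zero.1 h2).resolve_right p21.ne'
    rw [a0, a1, zero_smul, zero_smul, zero_add, zero_add] at hg
    have hyD : g 2 • y₀ + g 3 • y₁ ∈ D2 :=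
      D2.add_mem (D2.smul_mem _ hy₀D) (D2.smul_mem _ hy₁D)
    have hxy0 : β x₀ (g 2 • y₀ + g 3 • y₁) = 0 := by
      rw [map_add, map_smul, map_smul]
      exact hg
    have hy : g 2 • y₀ + g 3 • y₁ = 0 := by
      by_contra hyne
      obtain ⟨q, hq⟩ := (hD2 _).1 hyD
      have hqp := pos_coeff hQ hB2.1 hyne hq
      have h2 : β (x₀ + (g 2 • y₀ + g 3 • y₁)) (x₀ + (g 2 • y₀ + g 3 • y₁)) = t₁ + q • t₂ := by
        rw [expand hQ, hxy0, hq, ← ht₁, smul_zero, add_zero]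
      have h3 : x₀ + (g 2 • y₀ + g 3 • y₁) ≠ 0 := by
        intro h
        apply hx₀
        refine hinf _ hx₀D ?_
        have : x₀ = -(g 2 • y₀ + g 3 • y₁) := by rw [eq_neg_iff_add_eq_zero]; exact h
        rw [this]
        exact D2.neg_mem hyD
      have h4 := (hQ.bdy _ h3).2.2
      rw [h2] at h4
      obtain ⟨c, hc⟩ := hQ.sc.str t₁ hB1.1 (q • t₂) (hQ.sc.cc.smul q hqp.le _ hB2.1)
        (smul_ne_zero hqp.ne' ht₂0) h4
      rw [hc, map_smul, map_smul, hζ2t, smul_zero, smul_zero] at p21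
      exact lt_irrefl _ p21
    obtain ⟨a2, a3⟩ := hD2zero _ _ hy
    intro i
    fin_cases i
    · exact a0
    · exact a1
    · exact a2
    · exact a3

end Pool.Agent.H21.KV.AL1
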