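import Pool.Agent.H61.KV.TE
import Pool.Agent.H61.KV.TS

/-!
# A minimal face with one supporting hyperplane
-/

open Topology Set
open Pool.Agent.H61.KV

namespace Pool.Agent.H21.KV.HLF

theorem pf_HLF (h1 : T_FCB) (h2 : T_CNC) (h4 : T_STM) (h6 : T_FTR) (h7 : T_EBD) (h10 : T_P1N)
    (h11 : T_TWB) (h13 : T_UNI) (h14 : T_SPP) (h15 : T_EXP) (h16 : T_RK4) (h17 : T_MAX)
    (h18 : T_STJ) (h19 : T_MIT) (h20 : T_EXM) (h21 : T_EOV) (h22 : T_SUM) (h23 : T_SMO) :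
    T_HLF := by
  intro V _ _ _ m hcfg hns
  obtain ⟨hcc, hspan, -, -, hMC, -⟩ := h2 V m hcfg
  have fcb := fun p (hp : p ∈ Cn m) => h1 V (Cn m) p hcc hp
  have stm := h4 V m hcfg
  have ebd := h7 V m hcfg hns
  have p1n := h10 V m hcfg
  have uni := h13 V m hcfg hns
  have rk4 := h16 V m hcfg hns
  have mx := h17 V m hcfg hns
  have stj := h18 V m hcfg
  have mit := h19 V m hcfg hns
  have FcC : ∀ p q, q ∈ Fc (Cn m) p → q ∈ Cn m := fun p q hq => hq.1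
  have rank3 : ∀ p, Ms m p → 3 ≤ Module.finrank ℝ (Sp (Cn m) p) := by
    intro p hp
    rw [(p1n p hp).1]
    norm_num
  have spne : ∀ p, Ms m p → Sp (Cn m) p ≠ ⊤ := by
    intro p hp h
    have h3 := (p1n p hp).1
    rw [h, finrank_top, hcfg.rank] at h3
    norm_num at h3
  -- step 1
  obtain ⟨p0, hp0⟩ := h20 V m hcfg hns
  obtain ⟨y, hyF, hyO⟩ := h21 V m hcfg p0 hp0
  have hy0 : y ≠ 0 := by
    rintro rfl
    obtain ⟨ξ, hξ0, hξC, hξp⟩ := h14 V (Cn m) p0 hcc hspan hp0.1 (spne p0 hp0)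
    exact hξ0 (hyO ξ hξC hξp (map_zero ξ))
  have hyM : y ∈ Mh m := (stm p0 hp0 y y hyF).2.1
  have hyC : y ∈ Cn m := hMC hyM
  obtain ⟨t1, ht1, -⟩ := h11 V (Cn m) p0 0 hcc hp0.1 (rank3 p0 hp0)
  obtain ⟨t2, ht2, ht21⟩ := h11 V (Cn m) p0 t1 hcc hp0.1 (rank3 p0 hp0)
  have hp1 : Ms m (y + t1) := rk4 p0 y t1 hp0 hyF hyO ht1
  have hp2 : Ms m (y + t2) := rk4 p0 y t2 hp0 hyF hyO ht2
  obtain ⟨hy1, ht11, hr1⟩ := h6 V (Cn m) p0 y t1 hcc hp0.1 hyC ht1.1 hyF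
  obtain ⟨hy2, ht22, hr2⟩ := h6 V (Cn m) p0 y t2 hcc hp0.1 hyC ht2.1 hyF
  set p' := y + t1 with hp'
  set p'' := y + t2 with hp''
  -- step 2
  have hnot : p'' ∉ Fc (Cn m) p' := by
    intro h
    have h3 : t2 ∈ Fc (Cn m) p' := (fcb p' hp1.1).2.2.2.1 p'' h ht22
    have h5 := hr1 t2 ht2.1 h3
    obtain ⟨c, hc⟩ := (ebd p0 t1 hp0 ht1).2.2 t2 h5
    exact ht21 (Submodule.mem_span_singleton.2 ⟨c, hc.symm⟩)
  have common : ∀ r, r ∈ Fc (Cn m) p' → r ∈ Fc (Cn m) p'' → r ∈ Submodule.span ℝ {y} := by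
    obtain ⟨s, hs0, hs1, hs2, hs⟩ := uni p' p'' hp1 hp2 hnot
    obtain ⟨c, hc⟩ := hs y hy1 hy2
    have hc0 : c ≠ 0 := by
      rintro rfl
      rw [zero_smul] at hc
      exact hy0 hc
    intro r hr1 hr2
    obtain ⟨d, hd⟩ := hs r hr1 hr2
    refine Submodule.mem_span_singleton.2 ⟨d * c⁻¹, ?_⟩
    rw [hc, smul_smul, mul_assoc, inv_mul_cancel₀ hc0, mul_one, hd]
  have hBy1 : Bd (Cn m) p' y := ⟨hy1, hy0, mit p' hp1 y hy1 hyM⟩
  have hBy2 : Bd (Cn m) p'' y := ⟨hy2, hy0, mit p'' hp2 y hy2 hyM⟩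
  -- step 3
  obtain ⟨t, htB, hty, hsm1⟩ := h23 V (Cn m) p' y hcc hp1.1 (rank3 p' hp1)
  obtain ⟨z, hzB, hzy, hsm2⟩ := h23 V (Cn m) p'' y hcc hp2.1 (rank3 p'' hp2)
  have hzp : z ∉ Fc (Cn m) p' := fun h => hzy (common z h hzB.1)
  have hzM : z ∈ Mh m := (ebd p'' z hp2 hzB).1
  have hzC : z ∈ Cn m := hzB.1.1
  have htC : t ∈ Cn m := htB.1.1
  have hzO : Ov (Cn m) p' z := mx p' hp1 z hzC hzp
  have hzF : Foot (Cn m) p' z z := stj p' hp1 z hzM hzO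
  have hp : Ms m (z + t) := rk4 p' z t hp1 hzF hzO htB
  -- sums of two independent boundary points are interior
  have sumint : ∀ q a b, Ms m q → a ∈ Fc (Cn m) q → b ∈ Fc (Cn m) q → b ≠ 0 →
      a ∉ Submodule.span ℝ {b} → a + b ∈ Fc (Cn m) q ∧ q ∈ Fc (Cn m) (a + b) := by
    intro q a b hq ha hb hb0 hab
    have hs : a + b ∈ Fc (Cn m) q := (fcb q hq.1).2.1.add a ha b hb
    refine ⟨hs, ?_⟩
    by_contra hno
    have hab0 : a + b ≠ 0 := by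
      intro h
      apply hab
      have : a = -b := eq_neg_of_add_eq_zero_left h
      rw [this]
      exact Submodule.neg_mem _ (Submodule.mem_span_singleton_self b)
    have h3 := (ebd q (a + b) hq ⟨hs, hab0, hno⟩).2.2
    have h5 := (fcb (a + b) hs.1).2.2.1 a ha.1 b hb.1 (fcb (a + b) hs.1).1
    obtain ⟨c, hc⟩ := h3 a h5.1
    obtain ⟨d, hd⟩ := h3 b h5.2
    have hd0 : d ≠ 0 := by
      rintro rfl
      rw [zero_smul] at hd
      exact hb0 hd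
    apply hab
    refine Submodule.mem_span_singleton.2 ⟨c * d⁻¹, ?_⟩
    conv_lhs => rw [hd]
    rw [smul_smul, mul_assoc, inv_mul_cancel₀ hd0, mul_one, ← hc]
  obtain ⟨hzy1, hzy2⟩ := sumint p'' z y hp2 hzB.1 hy2 hy0 hzy
  have hFeq : Fc (Cn m) (z + y) = Fc (Cn m) p'' := (fcb p'' hp2.1).2.2.2.2.2.2 _ hzy1 hzy2
  obtain ⟨hty1, hty2⟩ := sumint p' t y hp1 htB.1 hy1 hy0 hty
  -- step 4
  obtain ⟨κ₀, hκ0, hκC, hκp⟩ := h14 V (Cn m) (z + t) hcc hspan hp.1 (spne _ hp)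
  have split : ∀ κ : V →ₗ[ℝ] ℝ, (∀ q ∈ Cn m, 0 ≤ κ q) → κ (z + t) = 0 → κ z = 0 ∧ κ t = 0 := by
    intro κ hκ h
    rw [map_add] at h
    have h3 := hκ z hzC
    have h5 := hκ t htC
    exact ⟨by linarith, by linarith⟩
  obtain ⟨hκz, hκt⟩ := split κ₀ hκC hκp
  have hpp' : z + t ∉ Fc (Cn m) p' := fun h => hzp ((fcb p' hp1.1).2.2.1 z hzC t htC h).1
  have hpp'' : z + t ∉ Fc (Cn m) p'' := fun h =>
    hty (common t htB.1 ((fcb p'' hp2.1).2.2.1 z hzC t htC h).2)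
  have hκp' : κ₀ p' ≠ 0 := fun h => hκ0 (mx p' hp1 (z + t) hp.1 hpp' κ₀ hκC h hκp)
  have hκp'' : κ₀ p'' ≠ 0 := fun h => hκ0 (mx p'' hp2 (z + t) hp.1 hpp'' κ₀ hκC h hκp)
  have hκy : κ₀ y ≠ 0 := by
    intro h
    apply hκp'
    exact h15 V (Cn m) (t + y) κ₀ hκC (by rw [map_add, h, hκt, add_zero]) p'
      (Submodule.subset_span hty2)
  refine ⟨z + t, κ₀, hp, hκ0, hκC, hκp, ?_⟩
  intro κ hκ hκzt
  obtain ⟨hκz', hκt'⟩ := split κ hκ hκzt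
  obtain ⟨c1, hc1⟩ := hsm1 κ κ₀ (fun r hr => hκ r hr.1) (fun r hr => hκC r hr.1) hκt' hκt hκp'
  obtain ⟨c2, hc2⟩ := hsm2 κ κ₀ (fun r hr => hκ r hr.1) (fun r hr => hκC r hr.1) hκz' hκz hκp''
  have hc12 : c1 = c2 := by
    have h3 := hc1 y (Submodule.subset_span hy1)
    have h5 := hc2 y (Submodule.subset_span hy2)
    exact mul_right_cancel₀ hκy (h3.symm.trans h5)
  refine ⟨c1, ?_⟩
  rw [← sub_eq_zero]
  have hyt : y ∉ Submodule.span ℝ {t} := by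
    intro h
    obtain ⟨c, hc⟩ := Submodule.mem_span_singleton.1 h
    have hc0 : c ≠ 0 := by
      rintro rfl
      rw [zero_smul] at hc
      exact hy0 hc.symm
    apply hty
    refine Submodule.mem_span_singleton.2 ⟨c⁻¹, ?_⟩
    rw [← hc, smul_smul, inv_mul_cancel₀ hc0, one_smul]
  refine h22 V m hcfg hns p' z t y hp1 hzF hzO htB hBy1 hyt (κ - c1 • κ₀) ?_ ?_ ?_
  · intro v hv
    rw [LinearMap.sub_apply, LinearMap.smul_apply, smul_eq_mul, hc1 v hv, sub_self]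
  · intro v hv
    rw [LinearMap.sub_apply, LinearMap.smul_apply, h15 V (Cn m) (z + t) κ hκ hκzt v hv,
      h15 V (Cn m) (z + t) κ₀ hκC hκp v hv, smul_zero, sub_zero]
  · intro v hv
    have hv' : v ∈ Sp (Cn m) p'' := by
      rw [Sp, hFeq] at hv
      exact hv
    rw [LinearMap.sub_apply, LinearMap.smul_apply, smul_eq_mul, hc2 v hv', hc12, sub_self]

end Pool.Agent.H21.KV.HLF
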