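import Pool.Agent.H61.KV.TE

/-!
# The projection of the cone along a face with one supporting hyperplane
-/

open Topology Set
open Pool.Agent.H61.KV

namespace Pool.Agent.H21.KV.HSC

variable {V : Type} [NormedAddCommGroup V] [NormedSpace ℝ V]

lemma add_int {C : Set V} (hC : IsCC C) {q x : V} (hq : q ∈ C) (hx : x ∈ interior C) :
    q + x ∈ interior C := by
  have h1 : IsOpen ((fun y => q + y) '' interior C) :=
    (Homeomorph.addLeft q).isOpenMap _ isOpen_interior
  have h2 : (fun y => q + y) '' interior C ⊆ C := by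
    rintro _ ⟨y, hy, rfl⟩
    exact hC.add q hq y (interior_subset hy)
  exact interior_maximal h2 h1 ⟨x, hx, rfl⟩

lemma smul_int {C : Set V} (hC : IsCC C) {c : ℝ} (hc : 0 < c) {x : V} (hx : x ∈ interior C) :
    c • x ∈ interior C := by
  have h1 : IsOpen ((fun y => c • y) '' interior C) :=
    (Homeomorph.smulOfNeZero c hc.ne').isOpenMap _ isOpen_interior
  have h2 : (fun y => c • y) '' interior C ⊆ C := by
    rintro _ ⟨y, hy, rfl⟩
    exact hC.smul c hc.le y (interior_subset hy)
  exact interior_maximal h2 h1 ⟨x, hx, rfl⟩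

lemma convex_cc {C : Set V} (hC : IsCC C) : Convex ℝ C := by
  intro x hx y hy a b ha hb _
  exact hC.add _ (hC.smul a ha x hx) _ (hC.smul b hb y hy)

lemma int_nonempty [FiniteDimensional ℝ V] {C : Set V} (hC : IsCC C)
    (hs : Submodule.span ℝ C = ⊤) : (interior C).Nonempty := by
  rw [(convex_cc hC).interior_nonempty_iff_affineSpan_eq_top,
    AffineSubspace.affineSpan_eq_top_iff_vectorSpan_eq_top_of_nonempty ℝ V V ⟨0, hC.zero⟩,
    eq_top_iff, ← hs, Submodule.span_le]
  intro x hx
  have := vsub_mem_vectorSpan ℝ hx hC.zero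
  simpa using this

lemma lin_nonpos {a b v : ℝ} (h : ∀ c : ℝ, 0 ≤ c → c * a + b < v) : a ≤ 0 := by
  by_contra ha
  push Not at ha
  have hb := h 0 le_rfl
  have h1 := h ((v - b) / a) (div_nonneg (by linarith) ha.le)
  rw [div_mul_cancel₀ _ ha.ne'] at h1
  linarith

theorem pf_HSC (h : T_FCB) : T_HSC := by
  intro V _ _ _ C p κ₀ hC hs hp ⟨hκ0, hκC, hκp, hκ⟩ v hv
  obtain ⟨x0, hx0⟩ := int_nonempty hC hs
  let O : Set V := ⋃ s : Sp C p, (fun w => w + (s : V)) ⁻¹' interior C
  have hOo : IsOpen O := isOpen_iUnion fun s =>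
    isOpen_interior.preimage (continuous_id.add continuous_const)
  have hOmem : ∀ w, w ∈ O ↔ ∃ s : Sp C p, w + (s : V) ∈ interior C := by
    intro w
    simp [O]
  have hOc : Convex ℝ O := by
    intro x hx y hy a b ha hb hab
    rw [hOmem] at hx hy ⊢
    obtain ⟨s, hs⟩ := hx
    obtain ⟨s', hs'⟩ := hy
    refine ⟨a • s + b • s', ?_⟩
    have h1 := (convex_cc hC).interior hs hs' ha hb hab
    have h2 : a • x + b • y + ((a • s + b • s' : Sp C p) : V) =
        a • (x + (s : V)) + b • (y + (s' : V)) := by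
      rw [Submodule.coe_add, Submodule.coe_smul, Submodule.coe_smul, smul_add, smul_add]
      abel
    rw [h2]
    exact h1
  by_cases hvO : v ∈ O
  · obtain ⟨s, hs⟩ := (hOmem v).1 hvO
    exact ⟨s, s.2, interior_subset hs⟩
  exfalso
  obtain ⟨f, hf⟩ := geometric_hahn_banach_open_point hOc hOo hvO
  have hCO : ∀ x ∈ interior C, x ∈ O := fun x hx =>
    (hOmem x).2 ⟨0, by simpa using hx⟩
  have f1 : ∀ q ∈ C, f q ≤ 0 := by
    intro q hq
    refine lin_nonpos (b := f x0) (v := f v) (fun c hc => ?_)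
    have h1 := hf _ (hCO _ (add_int hC (hC.smul c hc q hq) hx0))
    rwa [map_add, map_smul, smul_eq_mul] at h1
  have f2 : ∀ s ∈ Sp C p, f s ≤ 0 := by
    intro s hs
    refine lin_nonpos (b := f x0) (v := f v) (fun c _ => ?_)
    have h1 : c • s + x0 ∈ O := by
      refine (hOmem _).2 ⟨⟨-(c • s), (Sp C p).neg_mem ((Sp C p).smul_mem c hs)⟩, ?_⟩
      have : c • s + x0 + -(c • s) = x0 := by abel
      rw [this]
      exact hx0
    have h2 := hf _ h1
    rwa [map_add, map_smul, smul_eq_mul] at h2
  have f3 : 0 ≤ f v := by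
    by_contra hneg
    push Not at hneg
    have hx0' := f1 x0 (interior_subset hx0)
    have h1 : ∀ c : ℝ, 0 < c → c * f x0 < f v := by
      intro c hc
      have := hf _ (hCO _ (smul_int hC hc hx0))
      rwa [map_smul, smul_eq_mul] at this
    have h2 := h1 1 one_pos
    have h3 : f x0 < 0 := by linarith
    have h4 := h1 (f v / f x0 / 2) (by
      have := div_pos_of_neg_of_neg hneg h3
      linarith)
    have h5 : f v / f x0 / 2 * f x0 = f v / 2 := by
      have h6 : f v / f x0 * f x0 = f v := div_mul_cancel₀ _ h3.ne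
      linear_combination h6 / 2
    rw [h5] at h4
    linarith
  have hpS : p ∈ Sp C p := Submodule.subset_span (h V C p hC hp).1
  have hfp : f p = 0 := by
    refine le_antisymm (f1 p hp) ?_
    have := f2 (-p) ((Sp C p).neg_mem hpS)
    rw [map_neg] at this
    linarith
  obtain ⟨c, hc⟩ := hκ (-(f : V →ₗ[ℝ] ℝ)) (fun q hq => by
    have := f1 q hq
    simp only [LinearMap.neg_apply, ContinuousLinearMap.coe_coe]
    linarith) (by simp [hfp])
  have hc' : ∀ w, -f w = c * κ₀ w := by
    intro w
    have := congrArg (fun l : V →ₗ[ℝ] ℝ => l w) hc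
    simpa using this
  have hc0 : c ≤ 0 := by
    by_contra hpos
    push Not at hpos
    have h1 := hc' v
    have h2 := mul_pos hpos hv
    linarith
  rcases hc0.eq_or_lt with h1 | h1
  · have h2 := hf _ (hCO _ hx0)
    have h3 := hc' v
    have h4 := hc' x0
    rw [h1, zero_mul] at h3 h4
    linarith
  · apply hκ0
    have h2 : ∀ q ∈ C, κ₀ q = 0 := by
      intro q hq
      have h3 := hκC q hq
      have h4 := hc' q
      have h5 := f1 q hq
      nlinarith
    have h3 : Submodule.span ℝ C ≤ LinearMap.ker κ₀ := by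
      rw [Submodule.span_le]
      intro q hq
      exact h2 q hq
    rw [hs, top_le_iff] at h3
    exact LinearMap.ker_eq_top.1 h3

end Pool.Agent.H21.KV.HSC
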